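import Mathlib
import Pool.Agent.H21.FRDef4
import Pool.Agent.H21.FREx

namespace Pool.Agent.Results.MP_33c96f_co.Tree

open Pool.Agent.H21 Pool.Agent.H21.FR Matrix Finset Polynomial

variable {V : Type} [Fintype V] [DecidableEq V] (G : SimpleGraph V) [DecidableRel G.Adj]

theorem adj_map {R S : Type} [CommRing R] [CommRing S] (f : R →+* S) :
    (G.adjMatrix R).map f = G.adjMatrix S := by
  ext i j; by_cases h : G.Adj i j <;> simp [h]

theorem del (a : V) : ((G.induce {v | v ≠ a}).adjMatrix ℤ).charpoly =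
    (G.adjMatrix ℤ).charmatrix.adjugate a a := by
  rw [adjugate_apply, twoBlockTriangular_det _ (· ≠ a)]
  · have h1 : toSquareBlockProp ((G.adjMatrix ℤ).charmatrix.updateRow a (Pi.single a 1))
        (fun i => ¬ i ≠ a) = 1 := by
      ext ⟨i, hi⟩ ⟨j, hj⟩
      obtain rfl := not_not.mp hi
      obtain rfl := not_not.mp hj
      simp [toSquareBlockProp, toBlock]
    rw [h1, det_one, mul_one, Matrix.charpoly]
    congr 1
    refine Matrix.ext fun ⟨i, hi⟩ ⟨j, hj⟩ => ?_
    have hi' : i ≠ a := hi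
    simp only [toSquareBlockProp, toBlock, submatrix_apply, updateRow_ne hi', charmatrix_apply,
      diagonal_apply, Subtype.mk.injEq, SimpleGraph.adjMatrix_apply]
    rfl
  · intro i hi j hj
    obtain rfl := not_not.mp hi
    simp [hj]

theorem cosp (a b : V) (h : ∀ k, (G.adjMatrix ℤ ^ k) a a = (G.adjMatrix ℤ ^ k) b b) :
    CospectralDel G a b := by
  rw [CospectralDel, del, del]
  set A := G.adjMatrix ℤ
  set A' : Matrix V V ℤ[X] := A.map C with hA'
  obtain ⟨q, hq⟩ := X_sub_C_dvd_sub_C_eval (a := (X : ℤ[X])) (p := A'.charpoly)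
  have e := congrArg (aeval A') hq
  have ev : A'.charpoly.eval X = A.charmatrix.det := by
    rw [hA', charpoly_map, eval_map, eval₂_C_X]; rfl
  rw [map_sub, aeval_self_charpoly, map_mul, map_sub, aeval_X, aeval_C, aeval_C, ev] at e
  have e2 : A.charmatrix * aeval A' q = A.charmatrix.det • (1 : Matrix V V ℤ[X]) := by
    rw [zero_sub] at e
    rw [← Algebra.algebraMap_eq_smul_one, ← neg_inj, e, ← neg_mul]
    congr 1
    rw [charmatrix, neg_sub]; rfl
  have e3 : A.charmatrix.adjugate = aeval A' q := by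
    have := congrArg (A.charmatrix.adjugate * ·) e2
    simp only [← mul_assoc, adjugate_mul, smul_mul_assoc, mul_smul_comm, one_mul, mul_one] at this
    exact (smul_right_injective _ (A.charpoly_monic.ne_zero) this).symm
  rw [e3, aeval_eq_sum_range]
  simp only [Matrix.sum_apply, Matrix.smul_apply, hA', ← RingHom.mapMatrix_apply, ← map_pow]
  simp [h]

theorem spec : ∃ (u : V → V → ℝ) (θ : V → ℝ), (∀ j, G.adjMatrix ℝ *ᵥ u j = θ j • u j) ∧
    (∀ x y, ∑ j, u j x * u j y = if x = y then 1 else 0) ∧ ∀ j, IsAlgebraic ℚ (θ j) := by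
  have hA : (G.adjMatrix ℝ).IsHermitian := by
    rw [Matrix.IsHermitian, conjTranspose_eq_transpose_of_trivial]; exact G.isSymm_adjMatrix
  refine ⟨fun j => hA.eigenvectorBasis j, hA.eigenvalues, hA.mulVec_eigenvectorBasis,
    fun x y => ?_, fun j => ⟨(G.adjMatrix ℚ).charpoly, (charpoly_monic _).ne_zero, ?_⟩⟩
  · have := congrFun (congrFun (Unitary.coe_mul_star_self hA.eigenvectorUnitary) x) y
    simpa [mul_apply, one_apply] using this
  · have := mem_spectrum_iff_isRoot_charpoly.mp (hA.eigenvalues_mem_spectrum_real j)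
    generalize hA.eigenvalues j = t at *
    rwa [← adj_map G (algebraMap ℚ ℝ), charpoly_map, IsRoot, eval_map_algebraMap] at this

def ann {R : Type} [CommRing R] (l : List R) (v : V → R) : V → R :=
  l.foldr (fun μ w => G.adjMatrix R *ᵥ w - μ • w) v

theorem ann_pair (l : List ℂ) (v x : V → ℂ) (θ : ℂ) (h : G.adjMatrix ℂ *ᵥ x = θ • x) :
    x ⬝ᵥ ann G l v = (l.map (θ - ·)).prod * (x ⬝ᵥ v) := by
  induction l with
  | nil => simp [ann]
  | cons μ l ih =>
    change x ⬝ᵥ (_ *ᵥ ann G l v - μ • ann G l v) = _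
    rw [dotProduct_sub, dotProduct_mulVec, ← mulVec_transpose, G.isSymm_adjMatrix.eq, h,
      smul_dotProduct, dotProduct_smul, ih]
    simp; ring

theorem ann_map {R S : Type} [CommRing R] [CommRing S] (f : R →+* S) (l : List R) (v : V → R) :
    f ∘ ann G l v = ann G (l.map f) (f ∘ v) := by
  induction l with
  | nil => rfl
  | cons μ l ih =>
    change f ∘ (_ *ᵥ ann G l v - μ • ann G l v) = _ *ᵥ ann G (l.map f) _ - f μ • ann G (l.map f) _
    rw [← ih]
    ext i
    simp only [Function.comp_apply, Pi.sub_apply, map_sub, RingHom.map_mulVec, adj_map,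
      Pi.smul_apply, smul_eq_mul, map_mul]

theorem transfer {L : Type} [Field L] (f g : L →+* ℂ) (u : V → V → ℂ) (θ : V → ℂ)
    (hu : ∀ j, G.adjMatrix ℂ *ᵥ u j = θ j • u j) (hc : ∀ w, (∀ j, u j ⬝ᵥ w = 0) → w = 0)
    (v : V → L) (κ : L) (P : ℤ → Prop)
    (h : ∀ j, ∃ n, P n ∧ (u j ⬝ᵥ f ∘ v ≠ 0 → θ j = n * f κ)) (j : V) (hj : u j ⬝ᵥ g ∘ v ≠ 0) :
    ∃ n, P n ∧ θ j = n * g κ := by
  choose n hP hn using h
  set l : List L := univ.toList.map fun i => n i * κ
  have h1 : ann G l v = 0 := by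
    have : f ∘ ann G l v = 0 := hc _ fun i => by
      rw [ann_map, ann_pair G _ _ _ _ (hu i)]
      by_cases e : u i ⬝ᵥ f ∘ v = 0
      · rw [e, mul_zero]
      · refine mul_eq_zero_of_left (List.prod_eq_zero ?_) _
        simp only [l, List.mem_map, mem_toList, mem_univ, true_and]
        exact ⟨_, ⟨_, ⟨i, rfl⟩, rfl⟩, by simp [hn i e]⟩
    ext i
    exact f.injective (by simpa using congrFun this i)
  have h2 := ann_pair G (l.map g) (g ∘ v) _ _ (hu j)
  rw [← ann_map, h1] at h2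
  have h3 : (List.map (θ j - ·) (l.map g)).prod = 0 := by
    refine (mul_eq_zero.mp (h2.symm.trans ?_)).resolve_right hj
    simp [dotProduct]
  rw [List.prod_eq_zero_iff] at h3
  simp only [l, List.mem_map, mem_toList, mem_univ, true_and] at h3
  obtain ⟨_, ⟨_, ⟨i, rfl⟩, rfl⟩, e⟩ := h3
  exact ⟨n i, hP i, by simpa [sub_eq_zero] using e⟩

theorem exists_conj (L : Type) [Field L] [Algebra ℚ L] [IsAlgClosure ℚ L] (s : ℤ) (hs : s ≠ 0)
    (δ : L) (h : δ ^ 2 = s ^ 2 + 4) : ∃ σ : L →+* L, σ δ = -δ := by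
  suffices ∃ σ : L ≃ₐ[ℚ] L, σ δ = -δ from this.elim fun σ h => ⟨σ.toRingEquiv.toRingHom, h⟩
  apply minpoly.exists_algEquiv_of_root' (Algebra.IsAlgebraic.isAlgebraic δ)
  have hi : Irreducible (X ^ 2 - C ((s ^ 2 + 4 : ℤ) : ℚ)) := by
    apply X_pow_sub_C_irreducible_of_prime Nat.prime_two
    intro b hb
    obtain ⟨t, ht⟩ := Rat.isSquare_intCast_iff.mp ⟨b, by rw [← hb, sq]⟩
    rw [← sq_abs, ← abs_mul_abs_self] at ht
    have h1 := abs_pos.mpr hs
    have h2 := abs_nonneg t
    generalize |s| = x at *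
    generalize |t| = y at *
    have h3 : x < y := by nlinarith
    have h4 : y < x + 2 := by nlinarith
    obtain rfl : y = x + 1 := by omega
    have : 2 * x = 3 := by linarith
    omega
  rw [← minpoly.eq_of_irreducible_of_monic hi (by simp [h]) (monic_X_pow_sub_C _ two_ne_zero)]
  simp [h]

theorem walk_one (hG : G.IsTree) (a b : V) : (G.adjMatrix ℤ ^ G.dist a b) a b = 1 := by
  rw [SimpleGraph.adjMatrix_pow_apply_eq_card_walk, Nat.cast_eq_one, Fintype.card_eq_one_iff]
  obtain ⟨p, hp⟩ := hG.connected.exists_walk_length_eq_dist a b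
  refine ⟨⟨p, hp⟩, fun ⟨q, hq⟩ => Subtype.ext ?_⟩
  have := hG.isAcyclic.path_unique ⟨q, q.isPath_of_length_eq_dist hq⟩
    ⟨p, p.isPath_of_length_eq_dist hp⟩
  exact congrArg (fun r : G.Path a b => r.1) this

theorem flip (hG : G.IsTree) : ∃ ε : V → ℂ, (∀ v, ε v = 1 ∨ ε v = -1) ∧
    ∀ (x : V → ℂ) (θ : ℂ), G.adjMatrix ℂ *ᵥ x = θ • x →
      G.adjMatrix ℂ *ᵥ (ε * x) = (-θ) • (ε * x) := by
  let c := hG.coloringTwo
  refine ⟨fun v => if c v = 0 then 1 else -1, fun v => by dsimp only; split_ifs <;> simp,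
    fun x θ h => ?_⟩
  ext v
  have := congrFun h v
  simp only [SimpleGraph.adjMatrix_mulVec_apply, Pi.smul_apply, smul_eq_mul, Pi.mul_apply] at this ⊢
  rw [show -θ * ((if c v = 0 then 1 else -1) * x v) =
    -(if c v = 0 then 1 else -1) * (θ * x v) by ring, ← this, mul_sum]
  refine sum_congr rfl fun w hw => ?_
  have := c.valid (G.mem_neighborFinset v w |>.mp hw)
  congr 1
  revert this
  generalize c v = p; generalize c w = q
  fin_cases p <;> fin_cases q <;> simp

theorem result (V : Type) [Fintype V] [DecidableEq V] (G : SimpleGraph V) [DecidableRel G.Adj]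
    (hG : G.IsTree) (a b : V) (hab : a ≠ b) (h : ProperFR G a b) : CospectralDel G a b := by
  obtain ⟨τ, α, β, hτ, hαβ, hU⟩ := h
  have hβ := right_ne_zero_of_mul hαβ
  obtain ⟨u, θ, hu, hc, halg⟩ := spec G
  obtain ⟨ε, hε, hfl⟩ := flip G hG
  set x : V → V → ℂ := fun j v => u j v with hx
  have hxu : ∀ j, G.adjMatrix ℂ *ᵥ x j = (θ j : ℂ) • x j := fun j => by
    ext v
    have := congrArg Complex.ofReal (congrFun (hu j) v)
    simp only [SimpleGraph.adjMatrix_mulVec_apply, Pi.smul_apply, smul_eq_mul] at this ⊢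
    rwa [Complex.ofReal_sum, Complex.ofReal_mul] at this
  have hxc : ∀ v w, ∑ j, x j v * x j w = if v = w then 1 else 0 := fun v w => by
    have := congrArg Complex.ofReal (hc v w)
    push_cast [apply_ite Complex.ofReal] at this
    exact this
  have hpow : ∀ k v w, (((G.adjMatrix ℤ ^ k) v w : ℤ) : ℂ) =
      ∑ j, (θ j : ℂ) ^ k * (x j v * x j w) := by
    intro k v w
    have hp : ∀ j, G.adjMatrix ℂ ^ k *ᵥ x j = (θ j : ℂ) ^ k • x j := fun j => by
      induction k with
      | zero => simp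
      | succ n ih => rw [pow_succ', ← mulVec_mulVec, ih, mulVec_smul, hxu, smul_smul, pow_succ]
    have e : (((G.adjMatrix ℤ ^ k) v w : ℤ) : ℂ) = (G.adjMatrix ℂ ^ k) v w := by
      rw [← adj_map G (Int.castRingHom ℂ), ← RingHom.mapMatrix_apply, ← map_pow]; rfl
    have e2 : ∀ j, (θ j : ℂ) ^ k * (x j v * x j w) =
        ∑ z, (G.adjMatrix ℂ ^ k) v z * (x j z * x j w) := fun j => by
      have := congrFun (hp j) v
      simp only [mulVec, dotProduct, Pi.smul_apply, smul_eq_mul] at this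
      rw [← mul_assoc, ← this, sum_mul]; simp only [mul_assoc]
    rw [e, sum_congr rfl fun j _ => e2 j, sum_comm]
    simp [← mul_sum, hxc]
  have hc0 : ∀ w, (∀ j, x j ⬝ᵥ w = 0) → w = 0 := fun w hw => by
    ext v
    have : ∑ j, x j v * (x j ⬝ᵥ w) = w v := by
      simp only [dotProduct, mul_sum, ← mul_assoc]
      rw [sum_comm]; simp [← sum_mul, hxc]
    simpa [hw] using this.symm
  have key : ∀ (y : V → ℂ) (t : ℂ), G.adjMatrix ℂ *ᵥ y = t • y →
      Complex.exp (Complex.I * τ * t) * y a = α * y a + β * y b := fun y t hy => by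
    have hs := ((G.isSymm_adjMatrix (α := ℂ)).smul (Complex.I * τ)).exp
    have := congrArg (y ⬝ᵥ ·) hU
    simp only at this
    rw [dotProduct_mulVec, ← mulVec_transpose, hs.eq, FREx.exp_mulVec _ _ (Complex.I * τ * t)
      (by rw [smul_mulVec, hy, smul_smul])] at this
    simpa [mul_comm] using this
  set p : V → ℂ := fun j => Complex.exp (Complex.I * τ * θ j) with hp
  have k1 : ∀ j, p j * x j a = α * x j a + β * x j b := fun j => key _ _ (hxu j)
  have k2 : ∀ j, ε a * x j a = p j * (α * (ε a * x j a) + β * (ε b * x j b)) := fun j => by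
    have := key _ _ (hfl _ _ (hxu j))
    simp only [Pi.mul_apply] at this
    rw [← this, ← mul_assoc, ← Complex.exp_add]; simp
  have h0a := hxc a a
  have h0b := hxc b b
  have h0c := hxc a b
  rw [if_pos rfl] at h0a h0b
  rw [if_neg hab] at h0c
  apply cosp
  suffices H : ∀ j, x j a * x j a = x j b * x j b by
    intro k
    apply Int.cast_injective (α := ℂ)
    simp only [hpow, H]
  by_cases hside : ε a = ε b
  swap
  · have k3 : ∀ j, x j a = p j * (α * x j a - β * x j b) := fun j => by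
      have := k2 j
      rcases hε a with e | e <;> rcases hε b with e' | e' <;> rw [e, e'] at this hside
      · exact absurd rfl hside
      · linear_combination this
      · linear_combination -this
      · exact absurd rfl hside
    have k4 : ∀ j, (α ^ 2 - 1) * (x j a * x j a) = β ^ 2 * (x j b * x j b) := fun j => by
      linear_combination -x j a * k3 j - (α * x j a - β * x j b) * k1 j
    have k5 : α ^ 2 - 1 = β ^ 2 := by
      have := sum_congr rfl fun j (_ : j ∈ univ) => k4 j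
      rwa [← mul_sum, ← mul_sum, h0a, h0b, mul_one, mul_one] at this
    intro j
    exact mul_left_cancel₀ (pow_ne_zero 2 hβ) (by rw [← k4, k5])
  exfalso
  have k3 : ∀ j, (p j ^ 2 - 1) * x j a = 0 := fun j => by
    have := k2 j
    rw [← hside] at this
    rcases hε a with e | e <;> rw [e] at this
    · linear_combination p j * k1 j - this
    · linear_combination p j * k1 j + this
  have k4 : ∀ j, β ^ 2 * (x j b * x j b) + 2 * α * β * (x j a * x j b) +
      (α ^ 2 - 1) * (x j a * x j a) = 0 := fun j => by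
    linear_combination x j a * k3 j - (p j * x j a + α * x j a + β * x j b) * k1 j
  have k5 : β ^ 2 + α ^ 2 - 1 = 0 := by
    have := sum_eq_zero fun j (_ : j ∈ univ) => k4 j
    rw [sum_add_distrib, sum_add_distrib, ← mul_sum, ← mul_sum, ← mul_sum, h0a, h0b, h0c] at this
    linear_combination this
  obtain ⟨s, hs⟩ : ∃ s : ℤ, 2 * α = β * s := by
    refine ⟨(G.adjMatrix ℤ ^ G.dist a b) a a - (G.adjMatrix ℤ ^ G.dist a b) b b, ?_⟩
    have := sum_eq_zero (s := univ) (f := fun j =>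
      β ^ 2 * ((θ j : ℂ) ^ G.dist a b * (x j b * x j b)) +
        2 * α * β * ((θ j : ℂ) ^ G.dist a b * (x j a * x j b)) +
          (α ^ 2 - 1) * ((θ j : ℂ) ^ G.dist a b * (x j a * x j a))) fun j _ => by
      linear_combination (θ j : ℂ) ^ G.dist a b * k4 j
    simp only [sum_add_distrib, ← mul_sum, ← hpow] at this
    rw [walk_one G hG] at this
    apply mul_left_cancel₀ hβ
    push_cast at this ⊢
    linear_combination this - (((G.adjMatrix ℤ ^ G.dist a b) a a : ℤ) : ℂ) * k5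
  have hs0 : s ≠ 0 := by
    rintro rfl
    exact left_ne_zero_of_mul hαβ (by simpa using hs)
  have hδ : (2 / β) ^ 2 = s ^ 2 + 4 := by
    field_simp; linear_combination -4 * k5 + (2 * α + β * s) * hs
  have hτ' : (τ : ℂ) ≠ 0 := by exact_mod_cast hτ.ne'
  set y : ℂ → V → ℂ := fun d => (s + d) • Pi.single a 1 + (2 : ℂ) • Pi.single b 1 with hy
  have ex : ∀ d, ∃ j, x j ⬝ᵥ y d ≠ 0 := fun d => by
    by_contra! hc
    simpa [hy, hab.symm] using congrFun (hc0 _ hc) b
  have cl : ∀ (e : ℤ), e = 0 ∨ e = 1 → ∀ j, x j ⬝ᵥ y ((-1) ^ e * (2 / β)) ≠ 0 →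
      ∃ n : ℤ, n % 2 = e ∧ (θ j : ℂ) = n * (Real.pi / τ) := by
    intro e he j hj
    have e1 : x j ⬝ᵥ y ((-1) ^ e * (2 / β)) = 2 / β * (p j + (-1) ^ e) * x j a := by
      simp only [hy, dotProduct_add, dotProduct_smul, dotProduct_single, smul_eq_mul]
      field_simp; linear_combination -2 * k1 j - x j a * hs
    rw [e1] at hj
    have e2 : p j = Complex.exp (e * (Real.pi * Complex.I)) := by
      have := (mul_eq_zero.mp (k3 j)).resolve_right (right_ne_zero_of_mul hj)
      have h1 := right_ne_zero_of_mul (left_ne_zero_of_mul hj)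
      apply mul_left_cancel₀ h1
      rcases he with rfl | rfl <;> simp <;> linear_combination this
    obtain ⟨n, hn⟩ := Complex.exp_eq_exp_iff_exists_int.mp e2
    refine ⟨2 * n + e, by omega, mul_left_cancel₀ (mul_ne_zero Complex.I_ne_zero hτ') ?_⟩
    rw [hn]; push_cast; field_simp; ring
  obtain ⟨j1, hj1⟩ := ex ((-1) ^ (1 : ℤ) * (2 / β))
  obtain ⟨j0, hj0⟩ := ex ((-1) ^ (0 : ℤ) * (2 / β))
  obtain ⟨n1, hn1, e1⟩ := cl 1 (.inr rfl) j1 hj1
  obtain ⟨n0, hn0, e0⟩ := cl 0 (.inl rfl) j0 hj0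
  have aκ : IsAlgebraic ℚ (Real.pi / τ : ℂ) := by
    have : (n1 : ℂ) ≠ 0 := by exact_mod_cast (by omega : n1 ≠ 0)
    rw [← mul_div_cancel_left₀ (Real.pi / τ : ℂ) this, ← e1, div_eq_mul_inv]
    exact ((halg j1).algebraMap (A := ℂ)).mul (isAlgebraic_int n1).inv
  have aδ : IsAlgebraic ℚ (2 / β) := IsAlgebraic.of_pow two_pos (by
    rw [hδ]; exact_mod_cast isAlgebraic_int (R := ℚ) (A := ℂ) (s ^ (2 : ℕ) + 4))
  set δ : algebraicClosure ℚ ℂ := ⟨_, mem_algebraicClosure_iff.mpr aδ⟩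
  set κ : algebraicClosure ℚ ℂ := ⟨_, mem_algebraicClosure_iff.mpr aκ⟩
  obtain ⟨σ, hσ⟩ := @exists_conj _ _ _ (algebraicClosure.isAlgClosure ℚ ℂ) s hs0 δ
    ((algebraMap _ ℂ).injective (by
      rw [map_pow, map_add, map_pow, map_intCast, map_ofNat]; exact hδ))
  set f : algebraicClosure ℚ ℂ →+* ℂ := algebraMap _ _
  have fδ : f δ = 2 / β := rfl
  have hv : ∀ (g : algebraicClosure ℚ ℂ →+* ℂ) (d : algebraicClosure ℚ ℂ),
      g ∘ (((s : algebraicClosure ℚ ℂ) + d) • Pi.single a 1 +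
      (2 : algebraicClosure ℚ ℂ) • Pi.single b 1) = y (g d) := fun g d => by
    ext v; simp [hy, Pi.single_apply, apply_ite g, map_ofNat]
  have tr : ∀ (e : ℤ), e = 0 ∨ e = 1 → ∀ j, x j ⬝ᵥ y (-((-1) ^ e * (2 / β))) ≠ 0 →
      ∃ n : ℤ, n % 2 = e ∧ (θ j : ℂ) = n * f (σ κ) := fun e he j hj =>
    transfer G f (f.comp σ) x _ hxu hc0
      ((s + (-1) ^ e * δ) • Pi.single a 1 + (2 : algebraicClosure ℚ ℂ) • Pi.single b 1) κ
      (· % 2 = e) (fun i => by
        rw [hv, map_mul, fδ, map_zpow₀, map_neg, map_one]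
        by_cases hi : x i ⬝ᵥ y ((-1) ^ e * (2 / β)) = 0
        · exact ⟨e, by omega, fun h => absurd hi h⟩
        · exact (cl e he i hi).imp fun n hn => ⟨hn.1, fun _ => hn.2⟩) j
      (by rw [hv]; simpa [hσ, fδ] using hj)
  obtain ⟨m1, hm1, g1⟩ := tr 0 (.inl rfl) j1 (by simpa using hj1)
  obtain ⟨m0, hm0, g0⟩ := tr 1 (.inr rfl) j0 (by simpa using hj0)
  have hκ : (Real.pi / τ : ℂ) ≠ 0 := div_ne_zero (by exact_mod_cast Real.pi_ne_zero) hτ'
  have fin : n1 * m0 = m1 * n0 := by
    apply Int.cast_injective (α := ℂ)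
    apply mul_right_cancel₀ hκ
    push_cast
    linear_combination m0 * (g1 - e1) - m1 * (g0 - e0)
  have := congrArg (· % 2) fin
  simp only [Int.mul_emod n1, Int.mul_emod m1, hn1, hm1, hm0, hn0] at this
  omega

end Pool.Agent.Results.MP_33c96f_co.Tree
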